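import Pool.Agent.helper13.RF.Spec1

set_option autoImplicit false

open NumberField
open scoped nonZeroDivisors

namespace Pool.Agent.RF

section

variable {K L : Type} [Field K] [NumberField K] [Field L] [NumberField L] [Algebra K L]

/-- `x * g x * g (g x) * ..`, five factors -/
def AMA_no {M : Type} [Mul M] (g : M → M) (x : M) : M := x * g x * g (g x) * g (g (g x)) * g (g (g (g x)))

theorem AMA_card {σ : L ≃ₐ[K] L} (h : Ext5 K L σ) : Nat.card (L ≃ₐ[K] L) = 5 := by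
  haveI := h.gal
  rw [IsGalois.card_aut_eq_finrank, h.deg]

theorem AMA_order {σ : L ≃ₐ[K] L} (h : Ext5 K L σ) : orderOf σ = 5 := by
  rw [← AMA_card h, ← Nat.card_zpowers]
  have : Subgroup.zpowers σ = ⊤ := by
    rw [eq_top_iff]
    exact fun τ _ => h.gen τ
  rw [this]
  exact Subgroup.card_top

theorem AMA_five {σ : L ≃ₐ[K] L} (h : Ext5 K L σ) (x : L) : σ (σ (σ (σ (σ x)))) = x := by
  have h1 : σ ^ 5 = 1 := by
    rw [← AMA_order h]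
    exact pow_orderOf_eq_one σ
  have h2 : (σ ^ 5) x = x := by
    rw [h1]
    rfl
  exact h2

theorem AMA_norm {σ : L ≃ₐ[K] L} (h : Ext5 K L σ) (x : L) : algebraMap K L (Algebra.norm K x) = AMA_no σ x := by
  classical
  haveI := h.gal
  rw [Algebra.norm_eq_prod_automorphisms]
  have hbij : Function.Bijective (fun i : Fin 5 => σ ^ (i : ℕ)) := by
    rw [Fintype.bijective_iff_injective_and_card]
    constructor
    · intro i j hij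
      have hi : (i : ℕ) < orderOf σ := by
        rw [AMA_order h]
        exact i.2
      have hj : (j : ℕ) < orderOf σ := by
        rw [AMA_order h]
        exact j.2
      exact Fin.ext (pow_injOn_Iio_orderOf hi hj hij)
    · rw [Fintype.card_fin, ← Nat.card_eq_fintype_card, AMA_card h]
  rw [← hbij.prod_comp (fun τ => τ x), Fin.prod_univ_five]
  rfl

theorem AMA_gO (σ : L ≃ₐ[K] L) (x : 𝓞 L) : algebraMap (𝓞 L) L (gO σ x) = σ (algebraMap (𝓞 L) L x) :=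
  algebraMap_galRestrict_apply (𝓞 K) σ x

theorem AMA_gO5 {σ : L ≃ₐ[K] L} (h : Ext5 K L σ) (x : 𝓞 L) : gO σ (gO σ (gO σ (gO σ (gO σ x)))) = x := by
  apply FaithfulSMul.algebraMap_injective (𝓞 L) L
  rw [AMA_gO, AMA_gO, AMA_gO, AMA_gO, AMA_gO, AMA_five h]

theorem AMA_no_map (σ : L ≃ₐ[K] L) (x : 𝓞 L) : algebraMap (𝓞 L) L (AMA_no (gO σ) x) = AMA_no σ (algebraMap (𝓞 L) L x) := by
  unfold AMA_no
  simp only [map_mul, AMA_gO]

theorem AMA_gU (σ : L ≃ₐ[K] L) (u : (𝓞 L)ˣ) : ((gU σ u : (𝓞 L)ˣ) : 𝓞 L) = gO σ (u : 𝓞 L) := rfl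

theorem AMA_nm (σ : L ≃ₐ[K] L) (u : (𝓞 L)ˣ) : ((nm (gU σ) u : (𝓞 L)ˣ) : 𝓞 L) = AMA_no (gO σ) (u : 𝓞 L) := rfl

/-- the action on ideals -/
noncomputable def AMA_G (σ : L ≃ₐ[K] L) (I : Ideal (𝓞 L)) : Ideal (𝓞 L) := I.map (gO σ)

theorem AMA_G_mul (σ : L ≃ₐ[K] L) (I J : Ideal (𝓞 L)) : AMA_G σ (I * J) = AMA_G σ I * AMA_G σ J := Ideal.map_mul _ I J

theorem AMA_G_span (σ : L ≃ₐ[K] L) (x : 𝓞 L) : AMA_G σ (Ideal.span {x}) = Ideal.span {gO σ x} := by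
  unfold AMA_G
  rw [Ideal.map_span, Set.image_singleton]

theorem AMA_mem_G (σ : L ≃ₐ[K] L) (I : Ideal (𝓞 L)) (z : 𝓞 L) : z ∈ AMA_G σ I ↔ ∃ w, w ∈ I ∧ gO σ w = z :=
  Ideal.mem_map_iff_of_surjective _ (gO σ).surjective

theorem AMA_G5 {σ : L ≃ₐ[K] L} (h : Ext5 K L σ) (I : Ideal (𝓞 L)) : AMA_G σ (AMA_G σ (AMA_G σ (AMA_G σ (AMA_G σ I)))) = I := by
  ext z
  constructor
  · intro hz
    obtain ⟨z1, hz1, rfl⟩ := (AMA_mem_G _ _ _).1 hz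
    obtain ⟨z2, hz2, rfl⟩ := (AMA_mem_G _ _ _).1 hz1
    obtain ⟨z3, hz3, rfl⟩ := (AMA_mem_G _ _ _).1 hz2
    obtain ⟨z4, hz4, rfl⟩ := (AMA_mem_G _ _ _).1 hz3
    obtain ⟨z5, hz5, rfl⟩ := (AMA_mem_G _ _ _).1 hz4
    rw [AMA_gO5 h]
    exact hz5
  · intro hz
    have h1 : ∀ (J : Ideal (𝓞 L)) (w : 𝓞 L), w ∈ J → gO σ w ∈ AMA_G σ J := fun J w hw => (AMA_mem_G _ _ _).2 ⟨w, hw, rfl⟩
    have h2 := h1 _ _ (h1 _ _ (h1 _ _ (h1 _ _ (h1 _ _ hz))))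
    rwa [AMA_gO5 h] at h2

theorem AMA_G_ne (σ : L ≃ₐ[K] L) {I : Ideal (𝓞 L)} (hI : I ≠ ⊥) : AMA_G σ I ≠ ⊥ := by
  intro h
  apply hI
  rw [eq_bot_iff]
  intro z hz
  have h1 : gO σ z ∈ AMA_G σ I := (AMA_mem_G _ _ _).2 ⟨z, hz, rfl⟩
  rw [h, Ideal.mem_bot] at h1
  rw [Ideal.mem_bot]
  apply (gO σ).injective
  rw [h1, map_zero]

/-- the data of a fixed class -/
def AMA_D (σ : L ≃ₐ[K] L) (c : ClassGroup (𝓞 L)) (I : (Ideal (𝓞 L))⁰) (x y : 𝓞 L) (u : (𝓞 L)ˣ) : Prop :=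
  ClassGroup.mk0 I = c ∧ x ≠ 0 ∧ y ≠ 0 ∧ Ideal.span {x} * AMA_G σ I = Ideal.span {y} * I ∧ AMA_no (gO σ) y = AMA_no (gO σ) x * (u : 𝓞 L)

theorem AMA_exists {σ : L ≃ₐ[K] L} (h : Ext5 K L σ) (s : ClassGroup (𝓞 L) →* ClassGroup (𝓞 L)) (hs : IsS σ s) (c : ClassGroup (𝓞 L)) (hc : s c = c) :
    ∃ (I : (Ideal (𝓞 L))⁰) (x y : 𝓞 L) (u : (𝓞 L)ˣ), AMA_D σ c I x y u ∧ u ∈ (df (gU σ)).ker := by
  obtain ⟨I, rfl⟩ := ClassGroup.mk0_surjective c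
  have hI : (I : Ideal (𝓞 L)) ≠ ⊥ := mem_nonZeroDivisors_iff_ne_zero.1 I.2
  obtain ⟨J, hJ⟩ : ∃ J : (Ideal (𝓞 L))⁰, (J : Ideal (𝓞 L)) = AMA_G σ I :=
    ⟨⟨AMA_G σ I, mem_nonZeroDivisors_iff_ne_zero.2 (AMA_G_ne σ hI)⟩, rfl⟩
  have h1 := hs I J hJ
  rw [hc, eq_comm] at h1
  obtain ⟨x, y, hx, hy, hxy⟩ := ClassGroup.mk0_eq_mk0_iff.1 h1
  rw [hJ] at hxy
  have step : ∀ (a b : 𝓞 L) (A B : Ideal (𝓞 L)), Ideal.span {a} * A = Ideal.span {b} * B →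
      Ideal.span {gO σ a} * AMA_G σ A = Ideal.span {gO σ b} * AMA_G σ B := by
    intro a b A B hab
    rw [← AMA_G_span, ← AMA_G_span, ← AMA_G_mul, ← AMA_G_mul, hab]
  have e1 := step _ _ _ _ hxy
  have e2 := step _ _ _ _ e1
  have e3 := step _ _ _ _ e2
  have e4 := step _ _ _ _ e3
  rw [AMA_G5 h] at e4
  have hN : Ideal.span {AMA_no (gO σ) x} * (I : Ideal (𝓞 L)) = Ideal.span {AMA_no (gO σ) y} * I := by
    unfold AMA_no
    simp only [← Ideal.span_singleton_mul_span_singleton]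
    calc Ideal.span {x} * Ideal.span {gO σ x} * Ideal.span {gO σ (gO σ x)} * Ideal.span {gO σ (gO σ (gO σ x))} * Ideal.span {gO σ (gO σ (gO σ (gO σ x)))} * (I : Ideal (𝓞 L))
        = Ideal.span {x} * Ideal.span {gO σ x} * Ideal.span {gO σ (gO σ x)} * Ideal.span {gO σ (gO σ (gO σ x))} * (Ideal.span {gO σ (gO σ (gO σ (gO σ x)))} * (I : Ideal (𝓞 L))) := by ring
      _ = Ideal.span {x} * Ideal.span {gO σ x} * Ideal.span {gO σ (gO σ x)} * Ideal.span {gO σ (gO σ (gO σ (gO σ y)))} * (Ideal.span {gO σ (gO σ (gO σ x))} * AMA_G σ (AMA_G σ (AMA_G σ (AMA_G σ I)))) := by rw [e4]; ring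
      _ = Ideal.span {x} * Ideal.span {gO σ x} * Ideal.span {gO σ (gO σ (gO σ y))} * Ideal.span {gO σ (gO σ (gO σ (gO σ y)))} * (Ideal.span {gO σ (gO σ x)} * AMA_G σ (AMA_G σ (AMA_G σ I))) := by rw [e3]; ring
      _ = Ideal.span {x} * Ideal.span {gO σ (gO σ y)} * Ideal.span {gO σ (gO σ (gO σ y))} * Ideal.span {gO σ (gO σ (gO σ (gO σ y)))} * (Ideal.span {gO σ x} * AMA_G σ (AMA_G σ I)) := by rw [e2]; ring
      _ = Ideal.span {gO σ y} * Ideal.span {gO σ (gO σ y)} * Ideal.span {gO σ (gO σ (gO σ y))} * Ideal.span {gO σ (gO σ (gO σ (gO σ y)))} * (Ideal.span {x} * AMA_G σ I) := by rw [e1]; ring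
      _ = Ideal.span {y} * Ideal.span {gO σ y} * Ideal.span {gO σ (gO σ y)} * Ideal.span {gO σ (gO σ (gO σ y))} * Ideal.span {gO σ (gO σ (gO σ (gO σ y)))} * (I : Ideal (𝓞 L)) := by rw [hxy]; ring
  have hN2 : Ideal.span {AMA_no (gO σ) x} = Ideal.span {AMA_no (gO σ) y} := mul_right_cancel₀ hI hN
  obtain ⟨u, hu⟩ := Ideal.span_singleton_eq_span_singleton.1 hN2
  refine ⟨I, x, y, u, ⟨rfl, hx, hy, hxy, hu.symm⟩, ?_⟩
  have hfix : ∀ z : 𝓞 L, gO σ (AMA_no (gO σ) z) = AMA_no (gO σ) z := by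
    intro z
    unfold AMA_no
    simp only [map_mul, AMA_gO5 h]
    ring
  have hne : ∀ z : 𝓞 L, z ≠ 0 → gO σ z ≠ 0 := by
    intro z hz h0
    apply hz
    apply (gO σ).injective
    rw [h0, map_zero]
  have hxN : AMA_no (gO σ) x ≠ 0 := by
    unfold AMA_no
    have h1 := hne _ hx
    have h2 := hne _ h1
    have h3 := hne _ h2
    have h4 := hne _ h3
    exact mul_ne_zero (mul_ne_zero (mul_ne_zero (mul_ne_zero hx h1) h2) h3) h4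
  have h5 : gO σ (u : 𝓞 L) = u := by
    have h6 := congrArg (gO σ) hu
    rw [map_mul, hfix, hfix, ← hu] at h6
    exact mul_left_cancel₀ hxN h6
  rw [MonoidHom.mem_ker]
  have h7 : gU σ u = u := Units.ext h5
  change gU σ u / u = 1
  rw [h7, div_self']

theorem AMA_hilbert {σ : L ≃ₐ[K] L} (h : Ext5 K L σ) (a b : 𝓞 L) (ha : a ≠ 0) (hb : b ≠ 0) (hab : AMA_no (gO σ) a = AMA_no (gO σ) b) :
    ∃ e : 𝓞 L, e ≠ 0 ∧ a * gO σ e = b * e := by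
  haveI := h.gal
  haveI : IsCyclic (L ≃ₐ[K] L) := ⟨σ, h.gen⟩
  have hinj := FaithfulSMul.algebraMap_injective (𝓞 L) L
  obtain ⟨a', ha'⟩ : ∃ a', a' = algebraMap (𝓞 L) L a := ⟨_, rfl⟩
  obtain ⟨b', hb'⟩ : ∃ b', b' = algebraMap (𝓞 L) L b := ⟨_, rfl⟩
  have ha0 : a' ≠ 0 := by
    rw [ha']
    exact fun h0 => ha (hinj (by rw [h0, map_zero]))
  have hb0 : b' ≠ 0 := by
    rw [hb']
    exact fun h0 => hb (hinj (by rw [h0, map_zero]))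
  have hN : AMA_no σ a' = AMA_no σ b' := by
    rw [ha', hb', ← AMA_no_map, ← AMA_no_map, hab]
  have hn : Algebra.norm K (a' / b') = 1 := by
    have h1 : Algebra.norm K a' = Algebra.norm K b' := by
      apply (algebraMap K L).injective
      rw [AMA_norm h, AMA_norm h, hN]
    have h2 : Algebra.norm K b' ≠ 0 := Algebra.norm_ne_zero_iff.2 hb0
    have h3 : Algebra.norm K (a' / b') * Algebra.norm K b' = 1 * Algebra.norm K b' := by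
      rw [← map_mul, div_mul_cancel₀ _ hb0, h1, one_mul]
    exact mul_right_cancel₀ h2 h3
  obtain ⟨y, hy⟩ := groupCohomology.exists_div_of_norm_eq_one h.gen hn
  have hy0 : (y : L) ≠ 0 := y.ne_zero
  have hσ0 : σ (y : L) ≠ 0 := fun h0 => hy0 (σ.injective (by rw [h0, map_zero]))
  obtain ⟨n, hn0, hni⟩ := ((IsFractionRing.isAlgebraic_iff ℤ ℚ L).2 (Algebra.IsAlgebraic.isAlgebraic (R := ℚ) (y : L))).exists_integral_multiple
  obtain ⟨e, he⟩ : ∃ e : 𝓞 L, algebraMap (𝓞 L) L e = n • (y : L) := ⟨⟨n • (y : L), hni⟩, rfl⟩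
  refine ⟨e, ?_, ?_⟩
  · rintro rfl
    rw [map_zero] at he
    have := smul_ne_zero hn0 hy0
    exact this he.symm
  · apply hinj
    rw [map_mul, map_mul, AMA_gO, he, map_zsmul, ← ha', ← hb']
    rw [div_eq_div_iff hσ0 hb0] at hy
    rw [mul_smul_comm, mul_smul_comm]
    congr 1
    rw [← hy, mul_comm]

theorem AMA_no_ne (σ : L ≃ₐ[K] L) {x : 𝓞 L} (hx : x ≠ 0) : AMA_no (gO σ) x ≠ 0 := by
  have hne : ∀ z : 𝓞 L, z ≠ 0 → gO σ z ≠ 0 := by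
    intro z hz h0
    apply hz
    apply (gO σ).injective
    rw [h0, map_zero]
  unfold AMA_no
  have h1 := hne _ hx
  have h2 := hne _ h1
  have h3 := hne _ h2
  have h4 := hne _ h3
  exact mul_ne_zero (mul_ne_zero (mul_ne_zero (mul_ne_zero hx h1) h2) h3) h4

theorem AMA_no_mul (σ : L ≃ₐ[K] L) (x y : 𝓞 L) : AMA_no (gO σ) (x * y) = AMA_no (gO σ) x * AMA_no (gO σ) y := by
  unfold AMA_no
  simp only [map_mul]
  ring

theorem AMA_span_ne {x : 𝓞 L} (hx : x ≠ 0) : Ideal.span {x} ≠ ⊥ := by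
  rw [Ne, Ideal.span_singleton_eq_bot]
  exact hx

theorem AMA_mk0_span {x : 𝓞 L} (J : (Ideal (𝓞 L))⁰) (hJ : (J : Ideal (𝓞 L)) = Ideal.span {x}) : ClassGroup.mk0 J = 1 := by
  have h1 : ClassGroup.mk0 (⟨(J : Ideal (𝓞 L)), J.2⟩ : (Ideal (𝓞 L))⁰) = 1 :=
    (ClassGroup.mk0_eq_one_iff J.2).2 ⟨⟨x, hJ⟩⟩
  exact h1

theorem AMA_key (hINV : INV_stmt) {σ : L ≃ₐ[K] L} (h : Ext5 K L σ) (hU : Unr K L) {c1 c2 : ClassGroup (𝓞 L)} {I1 I2 : (Ideal (𝓞 L))⁰} {x1 y1 x2 y2 : 𝓞 L} {u1 u2 v : (𝓞 L)ˣ}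
    (h1 : AMA_D σ c1 I1 x1 y1 u1) (h2 : AMA_D σ c2 I2 x2 y2 u2) (hv : u1 = u2 * nm (gU σ) v) : c1 * c2⁻¹ ∈ (ClassGroup.extendedHom (𝓞 K) (𝓞 L)).range := by
  haveI := h.gal
  obtain ⟨rfl, hx1, hy1, e1, f1⟩ := h1
  obtain ⟨rfl, hx2, hy2, e2, f2⟩ := h2
  have hI1 : (I1 : Ideal (𝓞 L)) ≠ ⊥ := mem_nonZeroDivisors_iff_ne_zero.1 I1.2
  have hI2 : (I2 : Ideal (𝓞 L)) ≠ ⊥ := mem_nonZeroDivisors_iff_ne_zero.1 I2.2
  have hv0 : (v : 𝓞 L) ≠ 0 := v.ne_zero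
  -- Hilbert 90
  have hno : AMA_no (gO σ) (y1 * x2) = AMA_no (gO σ) (x1 * y2 * v) := by
    rw [AMA_no_mul, AMA_no_mul, AMA_no_mul, f1, f2, hv, Units.val_mul, AMA_nm]
    ring
  obtain ⟨e, he0, he⟩ := AMA_hilbert h (y1 * x2) (x1 * y2 * v) (mul_ne_zero hy1 hx2) (mul_ne_zero (mul_ne_zero hx1 hy2) hv0) hno
  -- the inverse of `I2`
  obtain ⟨M, hM⟩ : ∃ M : ℕ, M = Ideal.absNorm (I2 : Ideal (𝓞 L)) := ⟨_, rfl⟩
  have hM0 : (M : 𝓞 L) ≠ 0 := by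
    rw [hM, Nat.cast_ne_zero]
    exact Ideal.absNorm_ne_zero_of_nonZeroDivisors I2
  have hMI : (I2 : Ideal (𝓞 L)) ∣ Ideal.span {(M : 𝓞 L)} := by
    rw [Ideal.dvd_span_singleton, hM]
    exact Ideal.absNorm_mem _
  obtain ⟨I3, hI3⟩ := hMI
  have hI30 : I3 ≠ ⊥ := by
    rintro rfl
    rw [Ideal.mul_bot] at hI3
    exact AMA_span_ne hM0 hI3
  have e3 : Ideal.span {y2} * AMA_G σ I3 = Ideal.span {x2} * I3 := by
    have h3 : AMA_G σ (I2 : Ideal (𝓞 L)) * AMA_G σ I3 = Ideal.span {(M : 𝓞 L)} := by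
      rw [← AMA_G_mul, ← hI3, AMA_G_span, map_natCast]
    apply mul_left_cancel₀ (AMA_span_ne hM0)
    calc Ideal.span {(M : 𝓞 L)} * (Ideal.span {y2} * AMA_G σ I3) = (Ideal.span {y2} * (I2 : Ideal (𝓞 L))) * I3 * AMA_G σ I3 := by rw [hI3]; ring
      _ = Ideal.span {x2} * (AMA_G σ (I2 : Ideal (𝓞 L)) * AMA_G σ I3) * I3 := by rw [← e2]; ring
      _ = Ideal.span {(M : 𝓞 L)} * (Ideal.span {x2} * I3) := by rw [h3]; ring
  -- the fixed ideal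
  have hfix : AMA_G σ ((I1 : Ideal (𝓞 L)) * I3 * Ideal.span {e}) = (I1 : Ideal (𝓞 L)) * I3 * Ideal.span {e} := by
    rw [AMA_G_mul, AMA_G_mul, AMA_G_span]
    apply mul_left_cancel₀ (mul_ne_zero (AMA_span_ne hx1) (AMA_span_ne hy2))
    calc Ideal.span {x1} * Ideal.span {y2} * (AMA_G σ (I1 : Ideal (𝓞 L)) * AMA_G σ I3 * Ideal.span {gO σ e})
        = (Ideal.span {x1} * AMA_G σ (I1 : Ideal (𝓞 L))) * (Ideal.span {y2} * AMA_G σ I3) * Ideal.span {gO σ e} := by ring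
      _ = (I1 : Ideal (𝓞 L)) * I3 * (Ideal.span {y1} * Ideal.span {x2} * Ideal.span {gO σ e}) := by rw [e1, e3]; ring
      _ = (I1 : Ideal (𝓞 L)) * I3 * Ideal.span {x1 * y2 * v * e} := by
        rw [Ideal.span_singleton_mul_span_singleton, Ideal.span_singleton_mul_span_singleton, he]
      _ = Ideal.span {x1} * Ideal.span {y2} * ((I1 : Ideal (𝓞 L)) * I3 * Ideal.span {e}) := by
        have h4 : Ideal.span {x1 * y2 * (v : 𝓞 L) * e} = Ideal.span {x1} * Ideal.span {y2} * Ideal.span {e} := by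
          rw [Ideal.span_singleton_mul_span_singleton, Ideal.span_singleton_mul_span_singleton, Ideal.span_singleton_eq_span_singleton]
          refine ⟨v⁻¹, ?_⟩
          calc x1 * y2 * (v : 𝓞 L) * e * (v⁻¹ : (𝓞 L)ˣ) = x1 * y2 * e * ((v : 𝓞 L) * (v⁻¹ : (𝓞 L)ˣ)) := by ring
            _ = x1 * y2 * e := by rw [Units.mul_inv, mul_one]
        rw [h4]
        ring
  have hA0 : (I1 : Ideal (𝓞 L)) * I3 * Ideal.span {e} ≠ ⊥ := mul_ne_zero (mul_ne_zero hI1 hI30) (AMA_span_ne he0)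
  obtain ⟨B, hB⟩ := hINV K L σ h.gen hU _ hA0 hfix
  have hB0 : B ≠ ⊥ := by
    rintro rfl
    rw [Ideal.map_bot] at hB
    exact hA0 hB.symm
  refine ⟨ClassGroup.mk0 ⟨B, mem_nonZeroDivisors_iff_ne_zero.2 hB0⟩, ?_⟩
  rw [ClassGroup.extendedHom_mk0]
  obtain ⟨J3, hJ3⟩ : ∃ J3 : (Ideal (𝓞 L))⁰, (J3 : Ideal (𝓞 L)) = I3 := ⟨⟨I3, mem_nonZeroDivisors_iff_ne_zero.2 hI30⟩, rfl⟩
  obtain ⟨Je, hJe⟩ : ∃ Je : (Ideal (𝓞 L))⁰, (Je : Ideal (𝓞 L)) = Ideal.span {e} := ⟨⟨Ideal.span {e}, mem_nonZeroDivisors_iff_ne_zero.2 (AMA_span_ne he0)⟩, rfl⟩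
  have h5 : ClassGroup.extendedIdeal (𝓞 K) (𝓞 L) ⟨B, mem_nonZeroDivisors_iff_ne_zero.2 hB0⟩ = I1 * J3 * Je := by
    apply Subtype.ext
    change B.map (algebraMap (𝓞 K) (𝓞 L)) = _
    rw [hB, Submonoid.coe_mul, Submonoid.coe_mul, hJ3, hJe]
  rw [h5, map_mul, map_mul, AMA_mk0_span Je hJe, mul_one]
  congr 1
  rw [eq_inv_iff_mul_eq_one, mul_comm, ← map_mul]
  exact AMA_mk0_span (x := (M : 𝓞 L)) _ (by rw [Submonoid.coe_mul, hJ3, hI3])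

end

theorem AMA (hINV : INV_stmt) : AMA_stmt := by
  classical
  intro K L _ _ _ _ _ σ h hU hR s hs
  obtain ⟨F, hF⟩ : ∃ F : Subgroup (𝓞 L)ˣ, F = (df (gU σ)).ker := ⟨_, rfl⟩
  obtain ⟨R, hR'⟩ : ∃ R : Subgroup (𝓞 L)ˣ, R = (nm (gU σ)).range := ⟨_, rfl⟩
  have hex : ∀ c : {c : ClassGroup (𝓞 L) // s c = c}, ∃ (I : (Ideal (𝓞 L))⁰) (x y : 𝓞 L) (u : (𝓞 L)ˣ), AMA_D σ c.1 I x y u ∧ u ∈ F := by
    intro c
    rw [hF]
    exact AMA_exists h s hs c.1 c.2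
  choose I x y u hD hu using hex
  rw [← hF, ← hR'] at hR ⊢
  let q : {c : ClassGroup (𝓞 L) // s c = c} → F ⧸ R.subgroupOf F := fun c => QuotientGroup.mk ⟨u c, hu c⟩
  have hq : ∀ c c', q c = q c' → c'.1 * c.1⁻¹ ∈ (ClassGroup.extendedHom (𝓞 K) (𝓞 L)).range := by
    intro c c' hcc
    have h1 := QuotientGroup.eq.1 hcc
    rw [Subgroup.mem_subgroupOf] at h1
    have h2 : (u c)⁻¹ * u c' ∈ R := h1
    rw [hR'] at h2
    obtain ⟨v, hv⟩ := h2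
    have h3 : u c' = u c * nm (gU σ) v := by
      rw [hv, mul_inv_cancel_left]
    exact AMA_key hINV h hU (hD c') (hD c) h3
  haveI : Nonempty {c : ClassGroup (𝓞 L) // s c = c} := ⟨⟨1, map_one s⟩⟩
  haveI : (R.subgroupOf F).FiniteIndex := ⟨hR⟩
  haveI : Finite (F ⧸ R.subgroupOf F) := Subgroup.finite_quotient_of_finiteIndex
  let f : {c : ClassGroup (𝓞 L) // s c = c} → (ClassGroup.extendedHom (𝓞 K) (𝓞 L)).range × (F ⧸ R.subgroupOf F) :=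
    fun c => (⟨c.1 * (Function.invFun q (q c)).1⁻¹, hq _ _ (Function.invFun_eq ⟨c, rfl⟩)⟩, q c)
  have hf : Function.Injective f := by
    intro c c' hcc
    have h1 : q c = q c' := congrArg Prod.snd hcc
    have h2 : c.1 * (Function.invFun q (q c)).1⁻¹ = c'.1 * (Function.invFun q (q c')).1⁻¹ := congrArg (fun p => (p.1 : ClassGroup (𝓞 L))) hcc
    rw [h1] at h2
    exact Subtype.ext (mul_right_cancel h2)
  have h3 := Nat.card_le_card_of_injective f hf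
  rw [Nat.card_prod] at h3
  exact h3

end Pool.Agent.RF
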