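import Pool.Agent.helper13.RF.Spec2

set_option autoImplicit false

open NumberField IsDedekindDomain
open scoped nonZeroDivisors

namespace Pool.Agent.RF

theorem DIS (hLOW : CD.LOW_stmt) (hDSL : CD.DSL_stmt) (hXCT : XCT_stmt) (hSPH : SPH_stmt) (hCGU : CGU_stmt) : DIS_stmt := by
  intro K M _ _ _ _ _ _ L₁ L₂ H hg1 hg2 hd1 hd2 hN1 hN2
  by_contra hne
  obtain ⟨X, hX⟩ : ∃ X : Set (M ≃ₐ[K] M), X = {g | (∀ x ∈ L₁, g x = x) ∨ (∀ x ∈ L₂, g x = x)} := ⟨_, rfl⟩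
  have hcard : 9 * Module.finrank K M = 25 * Nat.card X := by
    rw [hX]
    exact hXCT K M L₁ L₂ hg1 hg2 hd1 hd2 hne
  have hpos : 0 < Module.finrank K M := Module.finrank_pos
  have hq : (Nat.card X : ℝ) / (Module.finrank K M : ℝ) = 9 / 25 := by
    have h1 : (9 : ℝ) * Module.finrank K M = 25 * Nat.card X := by exact_mod_cast hcard
    have h2 : (0 : ℝ) < Module.finrank K M := by exact_mod_cast hpos
    rw [div_eq_div_iff h2.ne' (by norm_num)]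
    linarith
  have hsub : (⋃ g ∈ X, CD.Fp K M g) ⊆ HS K H := by
    intro v hv
    obtain ⟨g, hg⟩ := Set.mem_iUnion.1 hv
    obtain ⟨hgX, hgv⟩ := Set.mem_iUnion.1 hg
    rw [hX] at hgX
    intro w hw
    rcases hgX with h | h
    · obtain ⟨Q, h1, h2, h3, h4⟩ := hSPH K M L₁ g h v hgv
      exact hN1.2 Q w h1 h2 (by rw [h3, hw]) h4
    · obtain ⟨Q, h1, h2, h3, h4⟩ := hSPH K M L₂ g h v hgv
      exact hN2.2 Q w h1 h2 (by rw [h3, hw]) h4
  obtain ⟨δ₁, hδ₁, hl⟩ := hLOW K M X (1 / 100) (by norm_num)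
  obtain ⟨δ₂, hδ₂, hu⟩ := hCGU K H hN1.1 (1 / 100) (by norm_num)
  obtain ⟨t, ht0, ht1, ht2, ht3⟩ : ∃ t : ℝ, 0 < t ∧ t < δ₁ ∧ t < δ₂ ∧ t < 1 := by
    refine ⟨min (min δ₁ δ₂) 1 / 2, ?_, ?_, ?_, ?_⟩
    · have : 0 < min (min δ₁ δ₂) 1 := lt_min (lt_min hδ₁ hδ₂) one_pos
      linarith
    · have h1 : min (min δ₁ δ₂) 1 ≤ δ₁ := (min_le_left _ _).trans (min_le_left _ _)
      linarith
    · have h1 : min (min δ₁ δ₂) 1 ≤ δ₂ := (min_le_left _ _).trans (min_le_right _ _)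
      linarith
    · have h1 : min (min δ₁ δ₂) 1 ≤ 1 := min_le_right _ _
      linarith
  have h1 := hl (1 + t) (by linarith) (by linarith)
  have h2 := hu (1 + t) (by linarith) (by linarith)
  have h3 := (hDSL K (1 + t) (by linarith)).2.1 _ _ hsub
  rw [hq] at h1
  have h4 : 0 < -Real.log (1 + t - 1) := by
    rw [add_sub_cancel_left]
    have := Real.log_neg ht0 ht3
    linarith
  have h5 := (h1.trans h3).trans h2
  nlinarith

end Pool.Agent.RF
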