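import Pool.Agent.helper60.RF.SpecB

set_option autoImplicit false

/-!
# Row rf:MUL (MP_16912e_nt): points in one class, one type
-/

namespace Pool.Agent.RF

open NumberField

/-! ## The two real embeddings of `OO` -/

theorem MUL_sq : (√5 : ℝ) * √5 = 5 := Real.mul_self_sqrt (by norm_num)

theorem MUL_va_star (z : OO) : va (star z) = vb z := by
  unfold va vb
  rw [QuadraticAlgebra.re_star, QuadraticAlgebra.im_star]
  push_cast
  ring

theorem MUL_norm (z : OO) : (z.norm : ℝ) = va z * vb z := by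
  unfold va vb
  rw [QuadraticAlgebra.norm_def]
  push_cast
  linear_combination ((z.im : ℝ) ^ 2 / 4) * MUL_sq

theorem MUL_norm_ne {z : OO} (hz : z ≠ 0) : z.norm ≠ 0 := by
  intro h
  rw [QuadraticAlgebra.norm_def] at h
  have h1 : (2 * z.re + z.im) ^ 2 = 5 * z.im ^ 2 := by linarith [h, sq_nonneg z.re, show (2 * z.re + z.im) ^ 2 = 4 * (z.re * z.re + 1 * z.re * z.im - 1 * z.im * z.im) + 5 * z.im ^ 2 by ring]
  by_cases him : z.im = 0
  · have h2 : z.re = 0 := by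
      rw [him] at h1
      have : (2 * z.re) ^ 2 = 0 := by linarith [show (2 * z.re + 0) ^ 2 = (2 * z.re) ^ 2 by ring]
      have := pow_eq_zero_iff (two_ne_zero) |>.1 this
      omega
    exact hz (QuadraticAlgebra.ext h2 him)
  · have h3 : Irrational (√((5 : ℕ) : ℝ)) := Nat.Prime.irrational_sqrt (by norm_num)
    apply h3
    have h4 : (z.im : ℝ) ≠ 0 := by exact_mod_cast him
    refine ⟨|((2 * z.re + z.im : ℤ) : ℚ) / ((z.im : ℤ) : ℚ)|, ?_⟩
    rw [eq_comm, Real.sqrt_eq_iff_mul_self_eq (by norm_num) (by positivity)]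
    push_cast
    rw [abs_mul_abs_self]
    have h5 : ((2 * (z.re : ℝ) + z.im)) ^ 2 = 5 * (z.im : ℝ) ^ 2 := by exact_mod_cast h1
    field_simp
    linarith

theorem MUL_norm_ge {z c : OO} (n : ℕ) (hz : z ≠ 0) (h : z = (n : OO) * c) : (n : ℝ) ^ 2 ≤ |va z| * |vb z| := by
  have hc : c ≠ 0 := by
    rintro rfl
    rw [mul_zero] at h
    exact hz h
  have h1 : (1 : ℤ) ≤ |c.norm| := Int.one_le_abs (MUL_norm_ne hc)
  have h2 : z.norm = (n : ℤ) ^ 2 * c.norm := by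
    rw [h, map_mul, QuadraticAlgebra.norm_natCast]
  have h3 : (n : ℤ) ^ 2 ≤ |z.norm| := by
    rw [h2, abs_mul, abs_of_nonneg (by positivity)]
    nlinarith [sq_nonneg (n : ℤ)]
  rw [← abs_mul, ← MUL_norm]
  have h4 : ((n : ℤ) ^ 2 : ℝ) ≤ ((|z.norm| : ℤ) : ℝ) := by exact_mod_cast h3
  push_cast at h4
  exact h4

variable {D₀ : ℤ} {F : Type} [Field F] [NumberField F] (C : Ctx D₀ F)

include C in
theorem MUL_va_mul (x y : OO) : va (x * y) = va x * va y := by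
  have h : ((va (x * y) : ℝ) : ℂ) = ((va x * va y : ℝ) : ℂ) := by
    rw [← C.E1ι, map_mul, map_mul, C.E1ι, C.E1ι]
    push_cast
    rfl
  exact_mod_cast h

include C in
theorem MUL_vb_mul (x y : OO) : vb (x * y) = vb x * vb y := by
  rw [← MUL_va_star, ← MUL_va_star, ← MUL_va_star, star_mul, MUL_va_mul C, mul_comm]

theorem MUL_E2ι (z : OO) : C.E2 (C.ι z) = (vb z : ℂ) := by
  rw [← C.E12, C.σι, C.E1ι, MUL_va_star]

/-! ## The element `w` -/

theorem MUL_ssw : C.σ (C.σ C.w) = -C.w := by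
  have h1 := congrArg C.σ C.σw
  rw [map_mul, C.σι] at h1
  have h2 : C.ι ph * (C.ι (star ph) * C.σ (C.σ C.w)) = C.w := by
    rw [h1]
    exact C.σw
  rw [← mul_assoc, ← map_mul] at h2
  have h3 : ph * star ph = -1 := by
    unfold ph
    ext <;> simp <;> rfl
  rw [h3, map_neg, map_one, neg_one_mul] at h2
  exact neg_eq_iff_eq_neg.1 h2

theorem MUL_ssι (z : OO) : C.σ (C.σ (C.ι z)) = C.ι z := by
  rw [C.σι, C.σι, star_star]

/-- the square of the imaginary part of `E1 w` -/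
theorem MUL_E1w : (C.E1 C.w).im ^ 2 = va w2 * D₀ := by
  have h1 := C.E1c C.w
  rw [MUL_ssw, map_neg] at h1
  have h2 : (C.E1 C.w).re = 0 := by
    have := congrArg Complex.re h1
    rw [Complex.neg_re, Complex.conj_re] at this
    linarith
  have h3 := congrArg C.E1 C.ww
  rw [map_pow, map_neg, map_mul, C.E1ι, map_intCast] at h3
  have h4 := congrArg Complex.re h3
  rw [pow_two, Complex.mul_re, h2, Complex.neg_re, Complex.mul_re, Complex.ofReal_re, Complex.ofReal_im, Complex.intCast_re, Complex.intCast_im] at h4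
  linarith [pow_two (C.E1 C.w).im]

theorem MUL_E2w : (C.E2 C.w).im ^ 2 = vb w2 * D₀ := by
  have h1 := C.E2c C.w
  rw [MUL_ssw, map_neg] at h1
  have h2 : (C.E2 C.w).re = 0 := by
    have := congrArg Complex.re h1
    rw [Complex.neg_re, Complex.conj_re] at this
    linarith
  have h3 := congrArg C.E2 C.ww
  rw [map_pow, map_neg, map_mul, MUL_E2ι, map_intCast] at h3
  have h4 := congrArg Complex.re h3
  rw [pow_two, Complex.mul_re, h2, Complex.neg_re, Complex.mul_re, Complex.ofReal_re, Complex.ofReal_im, Complex.intCast_re, Complex.intCast_im] at h4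
  linarith [pow_two (C.E2 C.w).im]

theorem MUL_w12 (hD : 0 < D₀) : |(C.E1 C.w).im| * |(C.E2 C.w).im| = √5 * D₀ := by
  have h0 : (0 : ℝ) < D₀ := by exact_mod_cast hD
  have h1 : (|(C.E1 C.w).im| * |(C.E2 C.w).im|) ^ 2 = (√5 * D₀) ^ 2 := by
    rw [mul_pow, sq_abs, sq_abs, MUL_E1w, MUL_E2w, mul_pow, Real.sq_sqrt (by norm_num)]
    have h2 : va w2 * vb w2 = 5 := by
      rw [← MUL_norm]
      unfold w2
      rw [QuadraticAlgebra.norm_def]
      norm_num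
    linear_combination (D₀ : ℝ) ^ 2 * h2
  exact (pow_left_inj₀ (by positivity) (by positivity) two_ne_zero).1 h1

/-- imaginary parts -/
theorem MUL_im (z : 𝓞 F) (a b : OO) (h : 10 * z = C.ι a + C.ι b * C.w) :
    10 * |(C.E1 z).im| = |va b| * |(C.E1 C.w).im| ∧ 10 * |(C.E2 z).im| = |vb b| * |(C.E2 C.w).im| := by
  have h1 := congrArg Complex.im (congrArg C.E1 h)
  have h2 := congrArg Complex.im (congrArg C.E2 h)
  rw [map_mul, map_add, map_mul, C.E1ι, C.E1ι, map_ofNat, Complex.add_im, Complex.ofReal_im, Complex.im_ofReal_mul, zero_add] at h1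
  rw [map_mul, map_add, map_mul, MUL_E2ι, MUL_E2ι, map_ofNat, Complex.add_im, Complex.ofReal_im, Complex.im_ofReal_mul, zero_add] at h2
  have h3 : ∀ x : ℂ, ((OfNat.ofNat 10 : ℂ) * x).im = 10 * x.im := by
    intro x
    rw [Complex.mul_im]
    simp
  rw [h3] at h1 h2
  constructor
  · rw [← abs_mul, ← h1, abs_mul, abs_of_nonneg (by norm_num : (0 : ℝ) ≤ 10)]
  · rw [← abs_mul, ← h2, abs_mul, abs_of_nonneg (by norm_num : (0 : ℝ) ≤ 10)]

/-- absolute values -/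
theorem MUL_nrm (z : 𝓞 F) (n : OO) (g : ℕ) (h : z * C.σ (C.σ z) * (g : 𝓞 F) ^ 2 = C.ι n) :
    ‖C.E1 z‖ ^ 2 * (g : ℝ) ^ 2 = va n ∧ ‖C.E2 z‖ ^ 2 * (g : ℝ) ^ 2 = vb n := by
  have h1 := congrArg C.E1 h
  have h2 := congrArg C.E2 h
  rw [map_mul, map_mul, map_pow, map_natCast, C.E1c, C.E1ι, Complex.mul_conj'] at h1
  rw [map_mul, map_mul, map_pow, map_natCast, C.E2c, MUL_E2ι, Complex.mul_conj'] at h2
  constructor
  · exact_mod_cast h1
  · exact_mod_cast h2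

/-- imaginary parts of products -/
theorem MUL_pr (z₁ z₂ z₃ : 𝓞 F) (n : OO) (g : ℕ) (h : (g : 𝓞 F) * (C.σ (C.σ z₁) * z₂) = C.ι n * z₃) :
    (g : ℝ) * |((starRingEnd ℂ) (C.E1 z₁) * C.E1 z₂).im| = |va n| * |(C.E1 z₃).im| ∧
    (g : ℝ) * |((starRingEnd ℂ) (C.E2 z₁) * C.E2 z₂).im| = |vb n| * |(C.E2 z₃).im| := by
  have h1 := congrArg Complex.im (congrArg C.E1 h)
  have h2 := congrArg Complex.im (congrArg C.E2 h)
  have h3 : ∀ (m : ℕ) (x : ℂ), ((m : ℂ) * x).im = m * x.im := by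
    intro m x
    rw [Complex.mul_im, Complex.natCast_im, Complex.natCast_re, zero_mul, add_zero]
  rw [map_mul, map_mul, map_mul, map_natCast, C.E1c, C.E1ι, Complex.im_ofReal_mul, h3] at h1
  rw [map_mul, map_mul, map_mul, map_natCast, C.E2c, MUL_E2ι, Complex.im_ofReal_mul, h3] at h2
  constructor
  · rw [← abs_mul, ← h1, abs_mul, abs_of_nonneg (Nat.cast_nonneg g : (0 : ℝ) ≤ g)]
  · rw [← abs_mul, ← h2, abs_mul, abs_of_nonneg (Nat.cast_nonneg g : (0 : ℝ) ≤ g)]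

/-- the coefficient -/
theorem MUL_coe (z₁ z₂ z₃ : 𝓞 F) (n : OO) (g : ℕ) (h : (g : 𝓞 F) * (C.σ (C.σ z₁) * z₂) = C.ι n * z₃) (a₁ b₁ a₂ b₂ a₃ b₃ : OO)
    (h1 : 10 * z₁ = C.ι a₁ + C.ι b₁ * C.w) (h2 : 10 * z₂ = C.ι a₂ + C.ι b₂ * C.w) (h3 : 10 * z₃ = C.ι a₃ + C.ι b₃ * C.w) :
    (g : OO) * (a₁ * b₂ - a₂ * b₁) = 10 * n * b₃ := by
  have h4 : 10 * C.σ (C.σ z₁) = C.ι a₁ - C.ι b₁ * C.w := by
    have h5 := congrArg C.σ (congrArg C.σ h1)
    rw [map_mul, map_mul, map_add, map_add, map_mul, map_mul, MUL_ssι, MUL_ssι, MUL_ssw, map_ofNat, map_ofNat] at h5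
    rw [h5]
    ring
  have h6 : C.ι ((g : OO) * (a₁ * a₂ + b₁ * b₂ * (w2 * (D₀ : OO))) - 10 * n * a₃) + C.ι ((g : OO) * (a₁ * b₂ - a₂ * b₁) - 10 * n * b₃) * C.w = 0 := by
    simp only [map_sub, map_add, map_mul, map_natCast, map_intCast, map_ofNat]
    linear_combination 100 * h - (g : 𝓞 F) * (10 * z₂) * h4 - (g : 𝓞 F) * (C.ι a₁ - C.ι b₁ * C.w) * h2 + 10 * C.ι n * h3 + (g : 𝓞 F) * C.ι b₁ * C.ι b₂ * C.ww
  have h7 := (C.ind _ _ h6).2
  exact sub_eq_zero.1 h7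

theorem MUL_f1_dvd (f g : ℕ) (b : OO) (h : ∀ l ∈ f.primeFactors, ¬ l ∣ g → (l : OO) ^ (f.factorization l) ∣ b) : ((f1 f g : ℕ) : OO) ∣ b := by
  unfold f1
  rw [Nat.cast_prod]
  apply Finset.prod_dvd_of_coprime
  · intro l hl l' hl' hne
    have h1 := Nat.prime_of_mem_primeFactors (Finset.mem_filter.1 (Finset.mem_coe.1 hl)).1
    have h2 := Nat.prime_of_mem_primeFactors (Finset.mem_filter.1 (Finset.mem_coe.1 hl')).1
    have h3 : Nat.Coprime (l ^ f.factorization l) (l' ^ f.factorization l') := Nat.Coprime.pow _ _ ((Nat.coprime_primes h1 h2).2 hne)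
    exact h3.cast
  · intro l hl
    rw [Nat.cast_pow]
    exact h l (Finset.mem_filter.1 hl).1 (Finset.mem_filter.1 hl).2

theorem MUL_f1_pos (f g : ℕ) : 0 < f1 f g := by
  unfold f1
  apply Finset.prod_pos
  intro l hl
  exact pow_pos (Nat.prime_of_mem_primeFactors (Finset.mem_filter.1 hl).1).pos _

/-- the primes dividing `f` -/
theorem MUL_l (D f : ℤ) (D₀ : ℤ) (l : ℕ) (h : D = D₀ * f ^ 2) (h20 : D % 20 = 17) (hl : (l : ℤ) ∣ f) : l ≠ 2 ∧ l ≠ 5 := by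
  constructor
  · rintro rfl
    obtain ⟨c, hc⟩ := hl
    have h1 : D = 4 * (D₀ * c ^ 2) := by
      rw [h, hc]
      push_cast
      ring
    omega
  · rintro rfl
    obtain ⟨c, hc⟩ := hl
    have h1 : D = 5 * (5 * (D₀ * c ^ 2)) := by
      rw [h, hc]
      push_cast
      ring
    omega

/-- the final computation -/
theorem MUL_num (N D₀ f g t : ℝ) (hN : 0 < N) (hD : 0 < D₀) (hg : 0 < g) (ht : 0 < t) :
    4 * ((N * (D₀ * f ^ 2) / g ^ 4) / (N / g ^ 2 * t ^ 2 * (√5 * D₀ / 100))) ≤ 180 * (f / (g * t)) ^ 2 := by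
  have h5 : (0 : ℝ) < √5 := Real.sqrt_pos.2 (by norm_num)
  have h1 : (N * (D₀ * f ^ 2) / g ^ 4) / (N / g ^ 2 * t ^ 2 * (√5 * D₀ / 100)) = 20 * √5 * (f / (g * t)) ^ 2 := by
    rw [div_eq_iff (by positivity)]
    have h2 : √5 * √5 = 5 := MUL_sq
    field_simp
    linear_combination (-20 * f ^ 2 : ℝ) * h2
  rw [h1]
  have h3 : √5 ≤ 9 / 4 := by
    rw [Real.sqrt_le_left (by norm_num)]
    norm_num
  have h4 : 0 ≤ (f / (g * t)) ^ 2 := sq_nonneg _
  nlinarith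

theorem MUL (h1 : POS_stmt) (h2 : GDV_stmt) (h3 : DEL_stmt) (h4 : TRI_stmt) (h5 : NZB_stmt) (h6 : LAB_stmt) (h7 : YDV_stmt) (h8 : SPC_stmt)
    (h9 : TID_stmt) : MUL_stmt := by
  classical
  intro D₀ F _ _ C f g hsq hD₀ S hS hk hE
  rcases S.eq_empty_or_nonempty with rfl | ⟨o, ho⟩
  · rw [Finset.card_empty, Nat.cast_zero]
    positivity
  obtain ⟨hoP, hoD, hog, hon⟩ := hS o ho
  obtain ⟨hgf, -, -, hg0'⟩ := h2 o hoP D₀ f hsq hoD
  rw [hog] at hgf hg0'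
  have hg0 : 0 < g := hg0'
  have hf0 : 0 < f := by
    rcases Nat.eq_zero_or_pos f with rfl | h
    · exfalso
      have := hoP.D0
      rw [hoD] at this
      simp at this
    · exact h
  obtain ⟨W, hW⟩ : ∃ W : OO, W = -(w2 * (D₀ : OO)) := ⟨_, rfl⟩
  -- the elements `z`
  have hz : ∀ p q : Pt, ∃ (z : 𝓞 F) (a b : OO), p ∈ S → q ∈ S → Zr C f g p q z ∧ z * C.σ (C.σ z) * (g : 𝓞 F) ^ 2 = C.ι (p.n * q.n) ∧
      10 * z = C.ι a + C.ι b * C.w := by
    intro p q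
    by_cases hpq : p ∈ S ∧ q ∈ S
    · obtain ⟨hp, hq⟩ := hpq
      obtain ⟨hpP, hpD, hpg, -⟩ := hS p hp
      obtain ⟨hqP, hqD, hqg, -⟩ := hS q hq
      obtain ⟨hT, hEq⟩ := hE p hp q hq
      obtain ⟨z, hz1, hz2⟩ := h3 D₀ F C p q f hsq hpP hqP hpD hqD (by rw [hpg, hqg]) (by rw [hpg]; exact hT) hEq
      rw [hpg] at hz1 hz2
      obtain ⟨a, b, hab⟩ := C.co z
      exact ⟨z, a, b, fun _ _ => ⟨hz1, hz2, hab⟩⟩
    · exact ⟨0, 0, 0, fun hp hq => absurd ⟨hp, hq⟩ hpq⟩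
  choose z a b hz using hz
  -- the labels
  have hL : ∀ l : ℕ, ∃ lab : OO × OO → Fin 36, l.Prime → l ≠ 5 → ∀ x y : OO × OO,
      (l : OO) ∣ x.2 * (5 * x.1 ^ 4 + 10 * x.1 ^ 2 * x.2 ^ 2 * W + x.2 ^ 4 * W ^ 2) →
      (l : OO) ∣ y.2 * (5 * y.1 ^ 4 + 10 * y.1 ^ 2 * y.2 ^ 2 * W + y.2 ^ 4 * W ^ 2) →
      lab x = lab y → (l : OO) ∣ x.1 * y.2 - y.1 * x.2 := by
    intro l
    by_cases h : l.Prime ∧ l ≠ 5
    · obtain ⟨lab, hl⟩ := h6 l W h.1 h.2
      exact ⟨lab, fun _ _ => hl⟩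
    · exact ⟨fun _ => 0, fun h1 h2 => absurd ⟨h1, h2⟩ h⟩
  choose lab hlab using hL
  -- facts on the primes
  have hprime : ∀ l ∈ f.primeFactors, l.Prime ∧ l ≠ 2 ∧ l ≠ 5 ∧ l ∣ f ∧ 1 ≤ f.factorization l ∧ l ^ f.factorization l ∣ f := by
    intro l hl
    have hlp := Nat.prime_of_mem_primeFactors hl
    have hlf := Nat.dvd_of_mem_primeFactors hl
    have h25 := MUL_l o.D f D₀ l hoD hoP.D20 (by exact_mod_cast hlf)
    exact ⟨hlp, h25.1, h25.2, hlf, (hlp.dvd_iff_one_le_factorization hf0.ne').1 hlf, Nat.ordProj_dvd f l⟩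
  have hY : ∀ p ∈ S, ∀ q ∈ S, ∀ l ∈ f.primeFactors, ¬ l ∣ g → IsCoprime (l : OO) p.n ∧
      (l : OO) ∣ b p q * (5 * a p q ^ 4 + 10 * a p q ^ 2 * b p q ^ 2 * W + b p q ^ 4 * W ^ 2) ∧
      ((l : OO) ∣ b p q → (l : OO) ^ (f.factorization l) ∣ b p q) := by
    intro p hp q hq l hl hlg
    obtain ⟨hlp, -, -, hlf, he, hle⟩ := hprime l hl
    obtain ⟨hpP, hpD, hpg, -⟩ := hS p hp
    obtain ⟨hqP, hqD, hqg, -⟩ := hS q hq
    obtain ⟨hz1, hz2, hz3⟩ := hz p q hp hq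
    have hA := h7 D₀ F C p q f hsq hpP hqP hpD hqD (by rw [hpg, hqg]) (z p q) (by rw [hpg]; exact hz1) (by rw [hpg]; exact hz2) _ _ hz3 l 1 hlp le_rfl
      (by rw [pow_one]; exact hlf) (by rw [hpg]; exact hlg)
    have hB := h7 D₀ F C p q f hsq hpP hqP hpD hqD (by rw [hpg, hqg]) (z p q) (by rw [hpg]; exact hz1) (by rw [hpg]; exact hz2) _ _ hz3 l _ hlp he hle
      (by rw [hpg]; exact hlg)
    rw [pow_one, ← hW] at hA
    exact ⟨hA.1, hA.2.1, hB.2.2⟩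
  obtain ⟨Pr, hPr⟩ : ∃ Pr : Finset ℕ, Pr = f.primeFactors.filter (fun l => ¬ l ∣ g) := ⟨_, rfl⟩
  let Λ : Pt → ({l // l ∈ Pr} → Fin 36) := fun i l => lab l.1 (a o i, b o i)
  obtain ⟨B, hB⟩ : ∃ B : ℝ, B = 1 + 180 * ((f : ℝ) / (g * f1 f g)) ^ 2 := ⟨_, rfl⟩
  have hB0 : 0 ≤ B := by
    rw [hB]
    positivity
  -- the main step
  have hT : ∀ T : Finset Pt, T ⊆ S.erase o → (∀ i ∈ T, ∀ j ∈ T, Λ i = Λ j) → (T.card : ℝ) ≤ B := by
    intro T hTS hTΛ
    have hmem : ∀ i ∈ T, i ∈ S := fun i hi => Finset.mem_of_mem_erase (hTS hi)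
    obtain ⟨hva, hvb, hN0, hNr⟩ := h1 o hoP
    have hN : (0 : ℝ) < (o.n.norm : ℝ) := by exact_mod_cast hN0
    have hg' : (0 : ℝ) < g := by exact_mod_cast hg0
    have hf' : (0 : ℝ) < f := by exact_mod_cast hf0
    have hD' : (0 : ℝ) < D₀ := by exact_mod_cast hD₀
    have ht' : (0 : ℝ) < (f1 f g : ℝ) := by exact_mod_cast MUL_f1_pos f g
    have h5' : (0 : ℝ) < √5 := Real.sqrt_pos.2 (by norm_num)
    have hSPC := h8 Pt T (fun i => C.E1 (z o i)) (fun i => C.E2 (z o i)) ((o.n.norm : ℝ) * (D₀ * (f : ℝ) ^ 2) / (g : ℝ) ^ 4)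
      ((o.n.norm : ℝ) / (g : ℝ) ^ 2 * (f1 f g : ℝ) ^ 2 * (√5 * D₀ / 100)) (by positivity) (by positivity) ?_ ?_
    · rw [hB]
      exact hSPC.trans (add_le_add le_rfl (MUL_num _ _ _ _ _ hN hD' hg' ht'))
    · intro i hi
      have hiS := hmem i hi
      obtain ⟨hiP, hiD, hig, hin⟩ := hS i hiS
      obtain ⟨-, hz2, -⟩ := hz o i ho hiS
      obtain ⟨e1, e2⟩ := MUL_nrm C (z o i) (o.n * i.n) g hz2
      rw [le_div_iff₀ (by positivity)]
      have e3 : ‖C.E1 (z o i)‖ ^ 2 * ‖C.E2 (z o i)‖ ^ 2 * (g : ℝ) ^ 4 = (o.n.norm : ℝ) * (i.n.norm : ℝ) := by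
        have e4 : va (o.n * i.n) * vb (o.n * i.n) = (o.n.norm : ℝ) * (i.n.norm : ℝ) := by
          rw [← MUL_norm, map_mul]
          push_cast
          rfl
        rw [← e4, ← e1, ← e2]
        ring
      change ‖C.E1 (z o i)‖ ^ 2 * ‖C.E2 (z o i)‖ ^ 2 * (g : ℝ) ^ 4 ≤ _
      rw [e3]
      apply mul_le_mul_of_nonneg_left _ hN.le
      have e5 : (i.n.norm : ℝ) ≤ ((i.D : ℤ) : ℝ) := by exact_mod_cast (le_abs_self _).trans hin
      rw [hiD] at e5
      push_cast at e5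
      exact e5
    · intro i hi j hj hij
      have hiS := hmem i hi
      have hjS := hmem j hj
      obtain ⟨hiP, hiD, hig, hin⟩ := hS i hiS
      obtain ⟨hjP, hjD, hjg, hjn⟩ := hS j hjS
      obtain ⟨zi1, zi2, zi3⟩ := hz o i ho hiS
      obtain ⟨zj1, zj2, zj3⟩ := hz o j ho hjS
      obtain ⟨zz1, zz2, zz3⟩ := hz i j hiS hjS
      have hTRI := h4 D₀ F C o i j f g hg0 hoP hiP hjP hoD hiD hjD _ _ _ zi1 zj1 zz1
      have hco := MUL_coe C _ _ _ _ g hTRI _ _ _ _ _ _ zi3 zj3 zz3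
      -- `b ≠ 0`
      have hb0 : b i j ≠ 0 := by
        intro h0
        rw [h0, map_zero, zero_mul, add_zero] at zz3
        apply h5 D₀ F C i j f g hg0 hiP hjP hiD hjD (hk i hiS j hjS) hij (z i j) zz1
        have e1 := congrArg C.σ (congrArg C.σ zz3)
        rw [MUL_ssι, map_mul, map_mul, map_ofNat, map_ofNat, ← zz3] at e1
        exact mul_left_cancel₀ (by norm_num) e1
      -- `f₁ ∣ b`
      have hdvd : ((f1 f g : ℕ) : OO) ∣ b i j := by
        apply MUL_f1_dvd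
        intro l hl hlg
        obtain ⟨hlp, hl2, hl5, hlf, -, -⟩ := hprime l hl
        obtain ⟨hc1, hc2, -⟩ := hY o ho i hiS l hl hlg
        obtain ⟨-, hc3, -⟩ := hY o ho j hjS l hl hlg
        obtain ⟨-, -, hc4⟩ := hY i hiS j hjS l hl hlg
        apply hc4
        have hlPr : l ∈ Pr := by
          rw [hPr]
          exact Finset.mem_filter.2 ⟨hl, hlg⟩
        have hlabel : lab l (a o i, b o i) = lab l (a o j, b o j) := congrFun (hTΛ i hi j hj) ⟨l, hlPr⟩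
        have hd := hlab l hlp hl5 (a o i, b o i) (a o j, b o j) hc2 hc3 hlabel
        have hd2 : (l : OO) ∣ 10 * o.n * b i j := by
          rw [← hco]
          exact Dvd.dvd.mul_left hd _
        have h10 : IsCoprime (l : OO) ((10 : ℕ) : OO) := by
          have : Nat.Coprime l 10 := by
            have h2' : Nat.Coprime l 2 := (Nat.coprime_primes hlp Nat.prime_two).2 hl2
            have h5'' : Nat.Coprime l 5 := (Nat.coprime_primes hlp Nat.prime_five).2 hl5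
            exact Nat.Coprime.mul_right h2' h5''
          exact this.cast
        have h10' : IsCoprime (l : OO) (10 * o.n) := by
          have := h10.mul_right hc1
          exact_mod_cast this
        exact h10'.dvd_of_dvd_mul_left hd2
      obtain ⟨c, hc⟩ := hdvd
      have hge := MUL_norm_ge (f1 f g) hb0 hc
      obtain ⟨m1, m2⟩ := MUL_pr C _ _ _ _ g hTRI
      obtain ⟨i1, i2⟩ := MUL_im C (z i j) _ _ zz3
      have hw := MUL_w12 C hD₀
      obtain ⟨Y1, hY1⟩ : ∃ Y : ℝ, Y = |((starRingEnd ℂ) (C.E1 (z o i)) * C.E1 (z o j)).im| := ⟨_, rfl⟩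
      obtain ⟨Y2, hY2⟩ : ∃ Y : ℝ, Y = |((starRingEnd ℂ) (C.E2 (z o i)) * C.E2 (z o j)).im| := ⟨_, rfl⟩
      change _ ≤ |((starRingEnd ℂ) (C.E1 (z o i)) * C.E1 (z o j)).im| * |((starRingEnd ℂ) (C.E2 (z o i)) * C.E2 (z o j)).im|
      rw [← hY1] at m1 ⊢
      rw [← hY2] at m2 ⊢
      rw [abs_of_pos hva] at m1
      rw [abs_of_pos hvb] at m2
      have e1 : 100 * ((g : ℝ) ^ 2 * (Y1 * Y2)) = (o.n.norm : ℝ) * (|va (b i j)| * |vb (b i j)|) * (√5 * D₀) := by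
        calc 100 * ((g : ℝ) ^ 2 * (Y1 * Y2)) = (10 * ((g : ℝ) * Y1)) * (10 * ((g : ℝ) * Y2)) := by ring
          _ = (va o.n * (10 * |(C.E1 (z i j)).im|)) * (vb o.n * (10 * |(C.E2 (z i j)).im|)) := by rw [m1, m2]; ring
          _ = (va o.n * vb o.n) * (|va (b i j)| * |vb (b i j)|) * (|(C.E1 C.w).im| * |(C.E2 C.w).im|) := by rw [i1, i2]; ring
          _ = (o.n.norm : ℝ) * (|va (b i j)| * |vb (b i j)|) * (√5 * D₀) := by rw [hw, hNr]
      have e2 : (o.n.norm : ℝ) * (f1 f g : ℝ) ^ 2 * (√5 * D₀) ≤ 100 * ((g : ℝ) ^ 2 * (Y1 * Y2)) := by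
        rw [e1]
        apply mul_le_mul_of_nonneg_right _ (by positivity)
        exact mul_le_mul_of_nonneg_left hge hN.le
      have e3 : (o.n.norm : ℝ) / (g : ℝ) ^ 2 * (f1 f g : ℝ) ^ 2 * (√5 * D₀ / 100) = (o.n.norm : ℝ) * (f1 f g : ℝ) ^ 2 * (√5 * D₀) / (100 * (g : ℝ) ^ 2) := by
        field_simp
      rw [e3, div_le_iff₀ (by positivity)]
      linarith
  -- counting
  have hc1 : (S.erase o).card = ∑ y : ({l // l ∈ Pr} → Fin 36), ((S.erase o).filter fun i => Λ i = y).card :=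
    Finset.card_eq_sum_card_fiberwise fun i _ => Finset.mem_coe.2 (Finset.mem_univ _)
  have hc2 : ((S.erase o).card : ℝ) ≤ (36 : ℝ) ^ f.primeFactors.card * B := by
    rw [hc1]
    push_cast
    calc ∑ y : ({l // l ∈ Pr} → Fin 36), (((S.erase o).filter fun i => Λ i = y).card : ℝ) ≤ ∑ _y : ({l // l ∈ Pr} → Fin 36), B := by
          apply Finset.sum_le_sum
          intro y _
          apply hT _ (Finset.filter_subset _ _)
          intro i hi j hj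
          rw [(Finset.mem_filter.1 hi).2, (Finset.mem_filter.1 hj).2]
      _ = (36 : ℝ) ^ Pr.card * B := by
          rw [Finset.sum_const, Finset.card_univ, Fintype.card_fun, Fintype.card_fin, Fintype.card_coe, nsmul_eq_mul]
          push_cast
          rfl
      _ ≤ (36 : ℝ) ^ f.primeFactors.card * B := by
          apply mul_le_mul_of_nonneg_right _ hB0
          apply pow_le_pow_right₀ (by norm_num)
          rw [hPr]
          exact Finset.card_filter_le _ _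
  have hc3 : S.card = (S.erase o).card + 1 := (Finset.card_erase_add_one ho).symm
  rw [hc3, ← hB]
  push_cast
  linarith

end Pool.Agent.RF
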