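import Pool.Agent.helper88.RF.SpecW

set_option autoImplicit false

open Finset

namespace Pool.Agent.RF

/-- the size of `μ` at one place -/
theorem WDG_size (T x A A' Z p : ℝ) (hT : 1 ≤ T) (hx : 0 ≤ x) (hA : 0 ≤ A) (hA' : 0 ≤ A') (hZ : 0 ≤ Z) (hA1 : A ≤ T ^ 3) (hA1' : A' ≤ T ^ 3) (hZ1 : Z ≤ T ^ 3)
    (hp : 1 < 2 * p) (h : 2 * p * x ^ 5 ≤ 25 * A * Z * x ^ 3 + 3125 * A ^ 4 * A') : x ≤ (2 * T) ^ 6 := by
  have hT3 : (1 : ℝ) ≤ T ^ 3 := one_le_pow₀ hT
  obtain ⟨U, hU⟩ : ∃ U : ℝ, U = T ^ 3 := ⟨_, rfl⟩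
  rw [← hU] at hA1 hA1' hZ1 hT3
  have hx8 : x ≤ 8 * U := by
    by_contra hcon
    push Not at hcon
    have hx0 : 0 < x := by nlinarith
    have h1 : 25 * A * Z * x ^ 3 ≤ 1 / 2 * x ^ 5 := by
      have e1 : A * Z ≤ U * U := mul_le_mul hA1 hZ1 hZ (by linarith)
      have e2 : 50 * (U * U) ≤ x ^ 2 := by nlinarith
      have e3 : 0 ≤ x ^ 3 := by positivity
      calc 25 * A * Z * x ^ 3 = 25 * (A * Z) * x ^ 3 := by ring
        _ ≤ 25 * (U * U) * x ^ 3 := by
            apply mul_le_mul_of_nonneg_right _ e3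
            linarith
        _ ≤ (1 / 2 * x ^ 2) * x ^ 3 := by
            apply mul_le_mul_of_nonneg_right _ e3
            linarith
        _ = 1 / 2 * x ^ 5 := by ring
    have h2 : 3125 * A ^ 4 * A' ≤ 1 / 2 * x ^ 5 := by
      have e1 : A ^ 4 * A' ≤ U ^ 4 * U := mul_le_mul (pow_le_pow_left₀ hA hA1 4) hA1' hA' (by positivity)
      have e2 : (8 * U) ^ 5 ≤ x ^ 5 := pow_le_pow_left₀ (by linarith) hcon.le 5
      have e3 : 0 ≤ U ^ 5 := by positivity
      nlinarith
    have h3 : 2 * p * x ^ 5 ≤ x ^ 5 := by linarith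
    have h4 : 0 < x ^ 5 := by positivity
    nlinarith
  have h5 : (2 * T) ^ 6 = 64 * (U * U) := by
    rw [hU]
    ring
  rw [h5]
  nlinarith

/-- the equations at the two places have at most one solution -/
theorem WDG_uniq (A B c d p q p₁ q₁ : ℝ) (hA : A ≠ 0) (hB : B ≠ 0) (hc : c ≠ 0) (hd : d ≠ 0) (hp : p ≠ 0) (hq : q ≠ 0) (hp₁ : p₁ ≠ 0) (hq₁ : q₁ ≠ 0)
    (h1 : A * q ^ 2 = c * p ^ 3) (h2 : A * q₁ ^ 2 = c * p₁ ^ 3) (h3 : B * p ^ 2 = d * q ^ 3) (h4 : B * p₁ ^ 2 = d * q₁ ^ 3) : p = p₁ := by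
  have e1 : q ^ 2 * p₁ ^ 3 = q₁ ^ 2 * p ^ 3 := by
    apply mul_left_cancel₀ (mul_ne_zero hA hc)
    linear_combination c * p₁ ^ 3 * h1 - c * p ^ 3 * h2
  have e2 : p ^ 2 * q₁ ^ 3 = p₁ ^ 2 * q ^ 3 := by
    apply mul_left_cancel₀ (mul_ne_zero hB hd)
    linear_combination d * q₁ ^ 3 * h3 - d * q ^ 3 * h4
  have e3 : p ^ 5 = p₁ ^ 5 := by
    have h5 : q ^ 6 * q₁ ^ 6 * p ^ 4 * p₁ ^ 4 ≠ 0 := by positivity
    apply mul_left_cancel₀ h5
    have e4 : (q ^ 2 * p₁ ^ 3) ^ 3 = (q₁ ^ 2 * p ^ 3) ^ 3 := by rw [e1]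
    have e5 : (p ^ 2 * q₁ ^ 3) ^ 2 = (p₁ ^ 2 * q ^ 3) ^ 2 := by rw [e2]
    linear_combination (-(p ^ 4 * q₁ ^ 6)) * e4 - (q₁ ^ 6 * p ^ 9) * e5
  exact (Odd.strictMono_pow (by decide : Odd 5)).injective e3

theorem WDG_proof (hWRT : WRT_stmt) (hWMU : WMU_stmt) (hWDB : WDB_stmt) (hWBX : WBX_stmt) (hWVA : WVA_stmt) (hWEU : WEU_stmt) : WDG_stmt := by
  classical
  intro ε hε
  haveI : IsDomain OO := hWEU.1
  obtain ⟨hvaM, hvbM, hadd, hint, hstar, hnorm, hne⟩ := hWVA
  obtain ⟨C1, hC1, hbx⟩ := hWBX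
  obtain ⟨C2, hC2, hdb⟩ := hWDB ε 6 hε
  have h2ε : (1 : ℝ) ≤ 2 ^ ε := Real.one_le_rpow (by norm_num) hε.le
  refine ⟨C1 * (C2 * 2 ^ ε + 2), ?_, ?_⟩
  · have h0 : 0 ≤ C2 * 2 ^ ε := by positivity
    exact one_le_mul_of_one_le_of_one_le hC1 (by linarith)
  intro T L M g hT hL hLT hM hMT hg hga hgb S hS
  have hT' : (1 : ℝ) ≤ T := by exact_mod_cast hT
  have hTε : (1 : ℝ) ≤ (T : ℝ) ^ ε := Real.one_le_rpow hT' hε.le
  -- powers
  have hvapow : ∀ (x : OO) (n : ℕ), va (x ^ n) = va x ^ n := by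
    intro x n
    induction n with
    | zero =>
      rw [pow_zero, pow_zero]
      have := (hint 1).1
      simpa using this
    | succ n ih => rw [pow_succ, pow_succ, hvaM, ih]
  have hvbpow : ∀ (x : OO) (n : ℕ), vb (x ^ n) = vb x ^ n := by
    intro x n
    induction n with
    | zero =>
      rw [pow_zero, pow_zero]
      have := (hint 1).2
      simpa using this
    | succ n ih => rw [pow_succ, pow_succ, hvbM, ih]
  have hva0 : va 0 = 0 := by
    have := (hint 0).1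
    simpa using this
  -- the first coordinates
  have hE : ((S.image Prod.fst).card : ℝ) ≤ C1 * L ^ 2 := by
    apply hbx L hL
    intro x hx
    obtain ⟨t, ht, rfl⟩ := Finset.mem_image.1 hx
    obtain ⟨h1, h2, -⟩ := hS t ht
    exact ⟨h1, h2⟩
  -- the fibres
  have hfib : ∀ e ∈ S.image Prod.fst, ((S.filter fun t => t.1 = e).card : ℝ) ≤ (C2 * 2 ^ ε + 2) * (T : ℝ) ^ ε := by
    intro e he
    obtain ⟨t₀, ht₀, hte₀⟩ := Finset.mem_image.1 he
    obtain ⟨a, ha⟩ : ∃ a : OO, a = g * e := ⟨_, rfl⟩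
    have ha0 : a ≠ 0 := by
      intro h0
      obtain ⟨-, -, -, -, ht0, hR⟩ := hS t₀ ht₀
      rw [hte₀, ← ha, h0] at hR
      have hz0 : t₀.2 = 0 := by
        by_contra hz
        have h1 := (hne t₀.2 hz).1
        unfold R0 at hR
        simp only [QuadraticAlgebra.norm_zero, mul_zero, zero_mul, sub_zero, ne_eq, OfNat.ofNat_ne_zero, not_false_eq_true, zero_pow] at hR
        have h2 : trO 0 = 0 := rfl
        rw [h2, mul_zero, sub_zero] at hR
        exact h1 (pow_eq_zero_iff (by norm_num) |>.1 hR)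
      have he0 : e = 0 := by
        rw [ha] at h0
        exact (mul_eq_zero.1 h0).resolve_left hg
      apply ht0
      exact Prod.ext (by rw [hte₀, he0]; rfl) hz0
    have hea : |va e| ≤ L ∧ |vb e| ≤ L := by
      obtain ⟨h1, h2, -⟩ := hS t₀ ht₀
      rw [hte₀] at h1 h2
      exact ⟨h1, h2⟩
    have hAa : |va a| ≤ (T : ℝ) ^ 3 := by
      rw [ha, hvaM, abs_mul]
      calc |va g| * |va e| ≤ (T : ℝ) ^ 2 * T := mul_le_mul hga (hea.1.trans hLT) (abs_nonneg _) (by positivity)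
        _ = (T : ℝ) ^ 3 := by ring
    have hAb : |vb a| ≤ (T : ℝ) ^ 3 := by
      rw [ha, hvbM, abs_mul]
      calc |vb g| * |vb e| ≤ (T : ℝ) ^ 2 * T := mul_le_mul hgb (hea.2.trans hLT) (abs_nonneg _) (by positivity)
        _ = (T : ℝ) ^ 3 := by ring
    obtain ⟨Z, hZ⟩ : ∃ Z : Finset OO, Z = (S.filter fun t => t.1 = e).image Prod.snd := ⟨_, rfl⟩
    have hZc : (S.filter fun t => t.1 = e).card = Z.card := by
      rw [hZ, Finset.card_image_of_injOn]
      intro t ht t' ht' htt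
      have h1 := (Finset.mem_filter.1 (Finset.mem_coe.1 ht)).2
      have h2 := (Finset.mem_filter.1 (Finset.mem_coe.1 ht')).2
      exact Prod.ext (h1.trans h2.symm) htt
    have hZm : ∀ z ∈ Z, |va z| ≤ M ∧ |vb z| ≤ M ∧ R0 a z = 0 := by
      intro z hz
      rw [hZ] at hz
      obtain ⟨t, ht, rfl⟩ := Finset.mem_image.1 hz
      obtain ⟨ht1, ht2⟩ := Finset.mem_filter.1 ht
      obtain ⟨-, -, h3, h4, -, h6⟩ := hS t ht1
      rw [ht2, ← ha] at h6
      exact ⟨h3, h4, h6⟩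
    -- second alternative
    obtain ⟨Z2, hZ2⟩ : ∃ Z2 : Finset OO, Z2 = Z.filter fun z => 5 * a * star z ^ 2 = -(star ph ^ 3 * z ^ 3) := ⟨_, rfl⟩
    have hZ2c : Z2.card ≤ 2 := by
      have h1 : (Z2.erase 0).card ≤ 1 := by
        rw [Finset.card_le_one]
        intro z hz z₁ hz₁
        obtain ⟨hz0, hz⟩ := Finset.mem_erase.1 hz
        obtain ⟨hz10, hz₁⟩ := Finset.mem_erase.1 hz₁
        rw [hZ2] at hz hz₁
        have e1 := (Finset.mem_filter.1 hz).2
        have e2 := (Finset.mem_filter.1 hz₁).2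
        have hph : star ph ≠ 0 := by
          intro h0
          have := congrArg QuadraticAlgebra.im h0
          unfold ph at this
          simp at this
        have hneg : ∀ x : OO, va (-x) = -va x ∧ vb (-x) = -vb x := by
          intro x
          have h5 := hadd 0 x
          have h6 := (hint 0).1
          have h7 := (hint 0).2
          rw [Int.cast_zero, Int.cast_zero] at h6 h7
          constructor
          · have := h5.2.1
            rw [zero_sub, h6, zero_sub] at this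
            exact this
          · have := h5.2.2.2
            rw [zero_sub, h7, zero_sub] at this
            exact this
        have h5a : va 5 = 5 ∧ vb 5 = 5 := by
          have := hint 5
          exact_mod_cast this
        have f : ∀ z : OO, 5 * a * star z ^ 2 = -(star ph ^ 3 * z ^ 3) → (5 * va a) * (vb z) ^ 2 = (-(va (star ph)) ^ 3) * (va z) ^ 3 ∧
            (5 * vb a) * (va z) ^ 2 = (-(vb (star ph)) ^ 3) * (vb z) ^ 3 := by
          intro z hz
          have g1 := congrArg va hz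
          have g2 := congrArg vb hz
          rw [(hneg _).1, hvaM, hvaM, hvaM, hvapow, hvapow, hvapow, (hstar z).1, h5a.1] at g1
          rw [(hneg _).2, hvbM, hvbM, hvbM, hvbpow, hvbpow, hvbpow, (hstar z).2, h5a.2] at g2
          constructor
          · rw [g1]
            ring
          · rw [g2]
            ring
        obtain ⟨g1, g2⟩ := f z e1
        obtain ⟨g3, g4⟩ := f z₁ e2
        have ha' := (hne a ha0).2.2
        have hz' := (hne z hz0).2.2
        have hz1' := (hne z₁ hz10).2.2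
        have hp' := (hne _ hph).2.2
        have hva := WDG_uniq (5 * va a) (5 * vb a) (-(va (star ph)) ^ 3) (-(vb (star ph)) ^ 3) (va z) (vb z) (va z₁) (vb z₁)
          (mul_ne_zero (by norm_num) ha'.1) (mul_ne_zero (by norm_num) ha'.2) (neg_ne_zero.2 (pow_ne_zero _ hp'.1)) (neg_ne_zero.2 (pow_ne_zero _ hp'.2))
          hz'.1 hz'.2 hz1'.1 hz1'.2 g1 g3 g2 g4
        by_contra hzz
        apply (hne (z - z₁) (sub_ne_zero.2 hzz)).2.2.1
        rw [(hadd z z₁).2.1, hva, sub_self]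
      have h2 := Finset.pred_card_le_card_erase (s := Z2) (a := 0)
      omega
    -- first alternative
    obtain ⟨Z1, hZ1⟩ : ∃ Z1 : Finset OO, Z1 = Z.filter fun z => ∃ μ : OO, μ ≠ 0 ∧ μ ∣ ((25 * a.norm : ℤ) : OO) ∧
      25 * a * z * μ ^ 3 = 3125 * a ^ 4 * star a + 2 * ph * μ ^ 5 := ⟨_, rfl⟩
    have hZ1c : (Z1.card : ℝ) ≤ C2 * ((2 * T : ℕ) : ℝ) ^ ε := by
      have hμ : ∀ z : OO, ∃ μ : OO, z ∈ Z1 → μ ≠ 0 ∧ μ ∣ ((25 * a.norm : ℤ) : OO) ∧ 25 * a * z * μ ^ 3 = 3125 * a ^ 4 * star a + 2 * ph * μ ^ 5 := by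
        intro z
        by_cases hz : z ∈ Z1
        · have hz' := hz
          rw [hZ1] at hz'
          obtain ⟨μ, hμ⟩ := (Finset.mem_filter.1 hz').2
          exact ⟨μ, fun _ => hμ⟩
        · exact ⟨0, fun h => absurd h hz⟩
      choose μ hμ using hμ
      have hinj : Set.InjOn μ Z1 := by
        intro z hz z₁ hz₁ hzz
        obtain ⟨e1, -, e2⟩ := hμ z hz
        obtain ⟨-, -, e4⟩ := hμ z₁ hz₁
        rw [← hzz] at e4
        have e5 : 25 * a * z * μ z ^ 3 = 25 * a * z₁ * μ z ^ 3 := by rw [e2, e4]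
        have e6 := mul_right_cancel₀ (pow_ne_zero 3 e1) e5
        have h25 : (25 : OO) ≠ 0 := by
          intro h
          have := congrArg QuadraticAlgebra.re h
          revert this
          decide
        exact mul_left_cancel₀ (mul_ne_zero h25 ha0) e6
      rw [← Finset.card_image_of_injOn hinj]
      apply hdb (2 * T) (by omega) (25 * a.norm) (mul_ne_zero (by norm_num) (hne a ha0).1)
      · push_cast
        rw [← hnorm, abs_mul, abs_mul, abs_of_pos (by norm_num : (0 : ℝ) < 25)]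
        calc 25 * (|va a| * |vb a|) ≤ 25 * ((T : ℝ) ^ 3 * (T : ℝ) ^ 3) := by
              apply mul_le_mul_of_nonneg_left _ (by norm_num)
              exact mul_le_mul hAa hAb (abs_nonneg _) (by positivity)
          _ ≤ (2 * (T : ℝ)) ^ 6 := by
              have : 0 ≤ (T : ℝ) ^ 6 := by positivity
              nlinarith [show (T : ℝ) ^ 3 * (T : ℝ) ^ 3 = (T : ℝ) ^ 6 by ring, show (2 * (T : ℝ)) ^ 6 = 64 * (T : ℝ) ^ 6 by ring]
      · intro m hm
        obtain ⟨z, hz, rfl⟩ := Finset.mem_image.1 hm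
        obtain ⟨e1, e2, e3⟩ := hμ z hz
        refine ⟨e2, ?_⟩
        have hzZ : z ∈ Z := by
          rw [hZ1] at hz
          exact (Finset.mem_filter.1 hz).1
        obtain ⟨z1, z2, -⟩ := hZm z hzZ
        have c25 : va 25 = 25 ∧ vb 25 = 25 := by
          have := hint 25
          exact_mod_cast this
        have c3125 : va 3125 = 3125 ∧ vb 3125 = 3125 := by
          have := hint 3125
          exact_mod_cast this
        have c2 : va 2 = 2 ∧ vb 2 = 2 := by
          have := hint 2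
          exact_mod_cast this
        have hph1 : va ph = (1 + √5) / 2 := by
          unfold va ph
          push_cast
          ring
        have hph2 : vb ph = (1 - √5) / 2 := by
          unfold vb ph
          push_cast
          ring
        have h5l : (2.2 : ℝ) < √5 := by
          rw [Real.lt_sqrt (by norm_num)]
          norm_num
        push_cast
        constructor
        · have k1 := congrArg va e3
          rw [hvaM, hvaM, hvaM, (hadd _ _).1, hvaM, hvaM, hvaM, hvaM, hvapow, hvapow, hvapow, (hstar a).1, c25.1, c3125.1, c2.1] at k1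
          apply WDG_size T |va (μ z)| |va a| |vb a| |va z| |va ph| hT' (abs_nonneg _) (abs_nonneg _) (abs_nonneg _) (abs_nonneg _) hAa hAb (z1.trans hMT)
          · rw [hph1, abs_of_pos (by linarith)]
            linarith
          · have k2 : 2 * va ph * va (μ z) ^ 5 = 25 * va a * va z * va (μ z) ^ 3 - 3125 * va a ^ 4 * vb a := by linarith
            calc 2 * |va ph| * |va (μ z)| ^ 5 = |2 * va ph * va (μ z) ^ 5| := by
                  rw [abs_mul, abs_mul, abs_pow, abs_of_pos (by norm_num : (0 : ℝ) < 2)]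
              _ = |25 * va a * va z * va (μ z) ^ 3 - 3125 * va a ^ 4 * vb a| := by rw [k2]
              _ ≤ |25 * va a * va z * va (μ z) ^ 3| + |3125 * va a ^ 4 * vb a| := abs_sub _ _
              _ = 25 * |va a| * |va z| * |va (μ z)| ^ 3 + 3125 * |va a| ^ 4 * |vb a| := by
                  rw [abs_mul, abs_mul, abs_mul, abs_mul, abs_mul, abs_pow, abs_pow, abs_of_pos (by norm_num : (0 : ℝ) < 25), abs_of_pos (by norm_num : (0 : ℝ) < 3125)]
        · have k1 := congrArg vb e3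
          rw [hvbM, hvbM, hvbM, (hadd _ _).2.2.1, hvbM, hvbM, hvbM, hvbM, hvbpow, hvbpow, hvbpow, (hstar a).2, c25.2, c3125.2, c2.2] at k1
          apply WDG_size T |vb (μ z)| |vb a| |va a| |vb z| |vb ph| hT' (abs_nonneg _) (abs_nonneg _) (abs_nonneg _) (abs_nonneg _) hAb hAa (z2.trans hMT)
          · rw [hph2, abs_of_neg (by linarith)]
            linarith
          · have k2 : 2 * vb ph * vb (μ z) ^ 5 = 25 * vb a * vb z * vb (μ z) ^ 3 - 3125 * vb a ^ 4 * va a := by linarith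
            calc 2 * |vb ph| * |vb (μ z)| ^ 5 = |2 * vb ph * vb (μ z) ^ 5| := by
                  rw [abs_mul, abs_mul, abs_pow, abs_of_pos (by norm_num : (0 : ℝ) < 2)]
              _ = |25 * vb a * vb z * vb (μ z) ^ 3 - 3125 * vb a ^ 4 * va a| := by rw [k2]
              _ ≤ |25 * vb a * vb z * vb (μ z) ^ 3| + |3125 * vb a ^ 4 * va a| := abs_sub _ _
              _ = 25 * |vb a| * |vb z| * |vb (μ z)| ^ 3 + 3125 * |vb a| ^ 4 * |va a| := by
                  rw [abs_mul, abs_mul, abs_mul, abs_mul, abs_mul, abs_pow, abs_pow, abs_of_pos (by norm_num : (0 : ℝ) < 25), abs_of_pos (by norm_num : (0 : ℝ) < 3125)]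
    have hZU : Z ⊆ Z1 ∪ Z2 := by
      intro z hz
      obtain ⟨-, -, hR⟩ := hZm z hz
      rw [Finset.mem_union]
      rcases hWRT a z (Or.inl ha0) hR with ⟨n, k, hn, hk, h1, h2⟩ | h
      · left
        rw [hZ1]
        exact Finset.mem_filter.2 ⟨hz, hWMU a z n k ha0 hn hk h1 h2⟩
      · right
        rw [hZ2]
        exact Finset.mem_filter.2 ⟨hz, h⟩
    have hZcard : (Z.card : ℝ) ≤ Z1.card + Z2.card := by
      exact_mod_cast (Finset.card_le_card hZU).trans (Finset.card_union_le _ _)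
    have hZ2r : (Z2.card : ℝ) ≤ 2 := by exact_mod_cast hZ2c
    rw [hZc]
    have h2T : ((2 * T : ℕ) : ℝ) ^ ε = 2 ^ ε * (T : ℝ) ^ ε := by
      push_cast
      rw [Real.mul_rpow (by norm_num) (by positivity)]
    rw [h2T] at hZ1c
    calc (Z.card : ℝ) ≤ C2 * (2 ^ ε * (T : ℝ) ^ ε) + 2 := by linarith
      _ ≤ (C2 * 2 ^ ε + 2) * (T : ℝ) ^ ε := by nlinarith
  -- the sum
  have hsum : S.card = ∑ e ∈ S.image Prod.fst, (S.filter fun t => t.1 = e).card :=
    Finset.card_eq_sum_card_fiberwise fun t ht => Finset.mem_coe.2 (Finset.mem_image_of_mem _ (Finset.mem_coe.1 ht))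
  rw [hsum]
  push_cast
  calc ∑ e ∈ S.image Prod.fst, ((S.filter fun t => t.1 = e).card : ℝ) ≤ ∑ _e ∈ S.image Prod.fst, (C2 * 2 ^ ε + 2) * (T : ℝ) ^ ε := Finset.sum_le_sum hfib
    _ = ((S.image Prod.fst).card : ℝ) * ((C2 * 2 ^ ε + 2) * (T : ℝ) ^ ε) := by rw [Finset.sum_const, nsmul_eq_mul]
    _ ≤ (C1 * L ^ 2) * ((C2 * 2 ^ ε + 2) * (T : ℝ) ^ ε) := by
        apply mul_le_mul_of_nonneg_right hE
        positivity
    _ = C1 * (C2 * 2 ^ ε + 2) * (T : ℝ) ^ ε * L ^ 2 := by ring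

end Pool.Agent.RF
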